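import Pool.Agent.Helper14.Final

open Polynomial Pool.Agent.Helper14

namespace Pool.Agent.Results.MP_570c45_ag.OortTorelli11

theorem result :
    {p : ℕ | p.Prime ∧ (p : ZMod 67) ^ 33 = 1 ∧ (p : ZMod 67) ^ 3 ≠ 1}.Infinite ∧
    ∀ p : ℕ, p.Prime → (p : ZMod 67) ^ 33 = 1 → (p : ZMod 67) ^ 3 ≠ 1 →
      ∃ (k F : Type) (_ : Field k) (_ : Finite k) (_ : CharP k p) (_ : Field F) (_ : Algebra k F),
        Nat.card k = p ^ 33 ∧ IsCurveFunctionField k F ∧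
        ∃ L : ℤ[X], L.natDegree = 22 ∧ IsLPolynomial k F L ∧ IsNewtonPolygon p 33 L xi :=
  ⟨infinite_primes, main_theorem'⟩

end Pool.Agent.Results.MP_570c45_ag.OortTorelli11
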